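import Pool.Agent.W34.GB.Stm

set_option autoImplicit false
open Polynomial Filter Topology MeasureTheory

namespace Pool.Agent.W293.GZ

open Pool.Agent.W34.GB

theorem Zbase (s : ℕ) (hs : 1 < s) : Summable fun n : ℕ => 1 / ((n : ℝ) ^ s) :=
  Real.summable_one_div_nat_pow.2 hs

theorem Zinj (s : ℕ) (hs : 1 < s) (f : ℕ → ℕ) (hf : Function.Injective f) :
    Summable fun n : ℕ => 1 / (((f n : ℕ) : ℝ) ^ s) :=
  (Zbase s hs).comp_injective hf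

theorem Zzero (s : ℕ) (hs : 1 < s) : ∑' n : ℕ, 1 / ((n : ℝ) ^ s) =
    ∑' n : ℕ, 1 / (((n : ℝ) + 1) ^ s) := by
  have h := (Zbase s hs).tsum_eq_zero_add
  rw [h]
  push_cast
  have h0 : s ≠ 0 := by omega
  simp [h0]

theorem Zsum1 (s : ℕ) (hs : 1 < s) : Summable fun j : ℕ => 1 / (((j : ℝ) + 1) ^ s) := by
  refine (Zinj s hs (fun k => k + 1) (fun a b h => by simpa using h)).congr fun j => ?_
  push_cast
  rfl

theorem Zodd (s : ℕ) (hs : 1 < s) : ∑' k : ℕ, 1 / (((2 * k + 1 : ℕ) : ℝ) ^ s) =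
    (1 - 1 / 2 ^ s) * ∑' n : ℕ, 1 / (((n : ℝ) + 1) ^ s) := by
  have he : Summable fun k : ℕ => 1 / (((2 * k : ℕ) : ℝ) ^ s) :=
    Zinj s hs (fun k => 2 * k) (fun a b h => by simpa using h)
  have ho : Summable fun k : ℕ => 1 / (((2 * k + 1 : ℕ) : ℝ) ^ s) :=
    Zinj s hs (fun k => 2 * k + 1) (fun a b h => by simpa using h)
  have h := tsum_even_add_odd (f := fun n : ℕ => 1 / ((n : ℝ) ^ s)) he ho
  have h1 : ∑' k : ℕ, 1 / (((2 * k : ℕ) : ℝ) ^ s) = 1 / 2 ^ s * ∑' n : ℕ, 1 / (((n : ℝ) + 1) ^ s) := by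
    rw [← Zzero s hs, ← tsum_mul_left]
    refine tsum_congr fun k => ?_
    push_cast
    rw [mul_pow, one_div, mul_inv, one_div, one_div]
  rw [h1, Zzero s hs] at h
  linarith

theorem Zs1 (s : ℕ) (hs : 1 < s) : Summable fun j : ℕ => 1 / (((4 * j + 1 : ℕ) : ℝ) ^ s) :=
  Zinj s hs (fun k => 4 * k + 1) (fun a b h => by simpa using h)

theorem Zs3 (s : ℕ) (hs : 1 < s) : Summable fun j : ℕ => 1 / (((4 * j + 3 : ℕ) : ℝ) ^ s) :=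
  Zinj s hs (fun k => 4 * k + 3) (fun a b h => by simpa using h)

theorem So (s : ℕ) (hs : 1 < s) : Summable fun k : ℕ => 1 / (((2 * k + 1 : ℕ) : ℝ) ^ s) :=
  Zinj s hs (fun k => 2 * k + 1) (fun a b h => by simpa using h)

theorem Zadd (s : ℕ) (hs : 1 < s) : ∑' j : ℕ, 1 / (((4 * j + 1 : ℕ) : ℝ) ^ s) +
    ∑' j : ℕ, 1 / (((4 * j + 3 : ℕ) : ℝ) ^ s) = ∑' k : ℕ, 1 / (((2 * k + 1 : ℕ) : ℝ) ^ s) := by
  have e1 : ∀ j : ℕ, 1 / (((4 * j + 1 : ℕ) : ℝ) ^ s) =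
      (fun k : ℕ => 1 / (((2 * k + 1 : ℕ) : ℝ) ^ s)) (2 * j) := fun j => by
    show _ = 1 / (((2 * (2 * j) + 1 : ℕ) : ℝ) ^ s)
    rw [show 2 * (2 * j) + 1 = 4 * j + 1 by ring]
  have e3 : ∀ j : ℕ, 1 / (((4 * j + 3 : ℕ) : ℝ) ^ s) =
      (fun k : ℕ => 1 / (((2 * k + 1 : ℕ) : ℝ) ^ s)) (2 * j + 1) := fun j => by
    show _ = 1 / (((2 * (2 * j + 1) + 1 : ℕ) : ℝ) ^ s)
    rw [show 2 * (2 * j + 1) + 1 = 4 * j + 3 by ring]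
  rw [tsum_congr e1, tsum_congr e3]
  refine tsum_even_add_odd (f := fun k : ℕ => 1 / (((2 * k + 1 : ℕ) : ℝ) ^ s)) ?_ ?_
  · exact (Zs1 s hs).congr e1
  · exact (Zs3 s hs).congr e3

theorem Zsub (s : ℕ) (hs : 1 < s) : ∑' j : ℕ, 1 / (((4 * j + 1 : ℕ) : ℝ) ^ s) -
    ∑' j : ℕ, 1 / (((4 * j + 3 : ℕ) : ℝ) ^ s) =
    ∑' k : ℕ, (-1 : ℝ) ^ k / (((2 * k + 1 : ℕ) : ℝ) ^ s) := by
  have e1 : ∀ j : ℕ, 1 / (((4 * j + 1 : ℕ) : ℝ) ^ s) =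
      (fun k : ℕ => (-1 : ℝ) ^ k / (((2 * k + 1 : ℕ) : ℝ) ^ s)) (2 * j) := fun j => by
    show _ = (-1 : ℝ) ^ (2 * j) / (((2 * (2 * j) + 1 : ℕ) : ℝ) ^ s)
    rw [show 2 * (2 * j) + 1 = 4 * j + 1 by ring, pow_mul]
    norm_num
  have e3 : ∀ j : ℕ, -(1 / (((4 * j + 3 : ℕ) : ℝ) ^ s)) =
      (fun k : ℕ => (-1 : ℝ) ^ k / (((2 * k + 1 : ℕ) : ℝ) ^ s)) (2 * j + 1) := fun j => by
    show _ = (-1 : ℝ) ^ (2 * j + 1) / (((2 * (2 * j + 1) + 1 : ℕ) : ℝ) ^ s)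
    have hp : (-1 : ℝ) ^ (2 * j + 1) = -1 := by rw [pow_succ, pow_mul]; norm_num
    rw [show 2 * (2 * j + 1) + 1 = 4 * j + 3 by ring, hp, neg_div]
  rw [sub_eq_add_neg, ← tsum_neg, tsum_congr e1, tsum_congr e3]
  refine tsum_even_add_odd (f := fun k : ℕ => (-1 : ℝ) ^ k / (((2 * k + 1 : ℕ) : ℝ) ^ s)) ?_ ?_
  · exact (Zs1 s hs).congr e1
  · exact (Zs3 s hs).neg.congr e3

theorem beta3 : ∑' k : ℕ, (-1 : ℝ) ^ k / (((2 * k + 1 : ℕ) : ℝ) ^ 3) = Real.pi ^ 3 / 32 := by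
  have h := hasSum_L_function_mod_four_eval_three
  set f : ℕ → ℝ := fun n : ℕ => (1 : ℝ) / (n : ℝ) ^ 3 * Real.sin (Real.pi * n / 2) with hf
  have hev : ∀ k : ℕ, f (2 * k) = 0 := by
    intro k
    rw [hf]
    simp only
    have : Real.pi * ((2 * k : ℕ) : ℝ) / 2 = (k : ℝ) * Real.pi := by
      push_cast
      ring
    rw [this, Real.sin_nat_mul_pi, mul_zero]
  have hod : ∀ k : ℕ, f (2 * k + 1) = (-1 : ℝ) ^ k / (((2 * k + 1 : ℕ) : ℝ) ^ 3) := by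
    intro k
    rw [hf]
    simp only
    have : Real.pi * ((2 * k + 1 : ℕ) : ℝ) / 2 = Real.pi / 2 + (k : ℝ) * Real.pi := by
      push_cast
      ring
    rw [this, Real.sin_add_nat_mul_pi, Real.sin_pi_div_two, mul_one]
    ring
  have h1 : Summable fun k => f (2 * k) := by
    rw [show (fun k => f (2 * k)) = fun _ => (0 : ℝ) from funext hev]
    exact summable_zero
  have h2 : Summable fun k => f (2 * k + 1) :=
    h.summable.comp_injective (fun a b h => by simpa using h)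
  have h3 := tsum_even_add_odd h1 h2
  rw [h.tsum_eq] at h3
  simp only [hev, tsum_zero, zero_add] at h3
  rw [← h3]
  exact tsum_congr fun k => (hod k).symm

/-- the value of the series in terms of the base series -/
theorem Zgen (s : ℕ) (hs : 1 < s) (σ : ℕ) (_ : 1 ≤ σ) (w : ℝ) :
    ∑' j : ℕ, (1 / ((j : ℝ) + (σ : ℝ) / 4) ^ s + w / ((j : ℝ) + 1 / 2) ^ s -
      (1 + w) / ((j : ℝ) + 1) ^ s) =
    4 ^ s * ∑' j : ℕ, 1 / (((4 * j + σ : ℕ) : ℝ) ^ s) +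
      w * 2 ^ s * ∑' k : ℕ, 1 / (((2 * k + 1 : ℕ) : ℝ) ^ s) -
      (1 + w) * ∑' n : ℕ, 1 / (((n : ℝ) + 1) ^ s) := by
  have hA : Summable fun j : ℕ => 4 ^ s * (1 / (((4 * j + σ : ℕ) : ℝ) ^ s)) :=
    (Zinj s hs (fun k => 4 * k + σ) (fun a b h => by simpa using h)).mul_left _
  have hO : Summable fun k : ℕ => w * 2 ^ s * (1 / (((2 * k + 1 : ℕ) : ℝ) ^ s)) :=
    (So s hs).mul_left _
  have hE : Summable fun n : ℕ => (1 + w) * (1 / (((n : ℝ) + 1) ^ s)) := (Zsum1 s hs).mul_left _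
  rw [← tsum_mul_left, ← tsum_mul_left, ← tsum_mul_left, ← hA.tsum_add hO,
    ← (hA.add hO).tsum_sub hE]
  refine tsum_congr fun j => ?_
  have e1 : (j : ℝ) + (σ : ℝ) / 4 = ((4 * j + σ : ℕ) : ℝ) / 4 := by
    push_cast
    ring
  have e2 : (j : ℝ) + 1 / 2 = ((2 * j + 1 : ℕ) : ℝ) / 2 := by
    push_cast
    ring
  rw [e1, e2, div_pow, div_pow, one_div_div, div_div_eq_mul_div]
  ring

theorem Zvals (s : ℕ) (hs : 1 < s) : 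
    ∑' j : ℕ, 1 / (((4 * j + 1 : ℕ) : ℝ) ^ s) = ((1 - 1 / 2 ^ s) * ∑' n : ℕ, 1 / (((n : ℝ) + 1) ^ s) +
      ∑' k : ℕ, (-1 : ℝ) ^ k / (((2 * k + 1 : ℕ) : ℝ) ^ s)) / 2 ∧
    ∑' j : ℕ, 1 / (((4 * j + 3 : ℕ) : ℝ) ^ s) = ((1 - 1 / 2 ^ s) * ∑' n : ℕ, 1 / (((n : ℝ) + 1) ^ s) -
      ∑' k : ℕ, (-1 : ℝ) ^ k / (((2 * k + 1 : ℕ) : ℝ) ^ s)) / 2 := by
  have h1 := Zadd s hs
  have h2 := Zsub s hs
  have h3 := Zodd s hs
  rw [h3] at h1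
  constructor <;> linarith

theorem GC_eq : ∑' k : ℕ, (-1 : ℝ) ^ k / (((2 * k + 1 : ℕ) : ℝ) ^ 2) = GC := by
  unfold GC
  refine tsum_congr fun k => ?_
  push_cast
  rfl

theorem E2_eq : ∑' n : ℕ, 1 / (((n : ℝ) + 1) ^ 2) = Real.pi ^ 2 / 6 := by
  rw [← Zzero 2 (by norm_num)]
  exact hasSum_zeta_two.tsum_eq

theorem z1 : Z1s := by
  intro w
  have h2 : (1 : ℕ) < 2 := by norm_num
  have h3 : (1 : ℕ) < 3 := by norm_num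
  obtain ⟨v21, v23⟩ := Zvals 2 h2
  obtain ⟨v31, v33⟩ := Zvals 3 h3
  have o2 := Zodd 2 h2
  have o3 := Zodd 3 h3
  rw [E2_eq] at v21 v23 o2
  rw [GC_eq] at v21 v23
  rw [beta3] at v31 v33
  have hZ3 : ∑' n : ℕ, 1 / (((n : ℝ) + 1) ^ 3) = Z3 := rfl
  rw [hZ3] at v31 v33 o3
  refine ⟨?_, ?_, ?_, ?_⟩
  · unfold thX
    rw [Zgen 2 h2 1 le_rfl, v21, o2, E2_eq]
    ring
  · unfold thX
    rw [Zgen 2 h2 3 (by norm_num), v23, o2, E2_eq]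
    ring
  · unfold thY
    rw [Zgen 3 h3 1 le_rfl, v31, o3, hZ3]
    ring
  · unfold thY
    rw [Zgen 3 h3 3 (by norm_num), v33, o3, hZ3]
    ring

end Pool.Agent.W293.GZ
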