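import Pool.Agent.W34.GB.Stm
import Pool.Agent.H397R2.QF.H3462PA

set_option autoImplicit false
open Filter Topology

namespace Pool.Agent.W293.GZ

open Pool.Agent.W34.GB

theorem prod_primes_dvd (S : Finset ℕ) (q : ℕ) (hp : ∀ p ∈ S, p.Prime) (hd : ∀ p ∈ S, p ∣ q) :
    (∏ p ∈ S, p) ∣ q :=
  Finset.prod_primes_dvd q (fun p h => (hp p h).prime) hd

theorem z2 : Z2s := by
  intro a ha
  have hPA := Pool.Agent.H346R2.QG.PA a ha
  obtain ⟨M, hM⟩ := eventually_atTop.mp
    (hPA.eventually (eventually_gt_nhds (show (9 / 20 : ℝ) < 1 / 2 by norm_num)))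
  refine ⟨max (M + 1) 100, fun x hx q hq hqx => ?_⟩
  by_contra hcon
  push Not at hcon
  have hxM : (M : ℝ) + 1 ≤ x := (le_max_left _ _).trans hx
  have hx100 : (100 : ℝ) ≤ x := (le_max_right _ _).trans hx
  have hx0 : 0 ≤ x := by linarith
  set m := ⌊x⌋₊ with hm
  have hmM : M ≤ m := by
    rw [hm]
    exact Nat.le_floor (by linarith)
  have hmx : x - 1 < m := by
    have := Nat.lt_floor_add_one x
    linarith
  have hmx' : (m : ℝ) ≤ x := Nat.floor_le hx0
  have hm0 : (0 : ℝ) < m := by linarith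
  have h1 := hM m hmM
  rw [lt_div_iff₀ hm0] at h1
  set A := (Finset.range (m + 1)).filter (fun p => p.Prime ∧ p % 4 = a) with hA
  have hsplit := Finset.sum_filter_add_sum_filter_not A (fun p : ℕ => x / 8 ≤ (p : ℝ))
    (fun p => Real.log p)
  -- large part
  set S := A.filter (fun p : ℕ => x / 8 ≤ (p : ℝ)) with hS
  have hSp : ∀ p ∈ S, p.Prime ∧ p ∣ q := by
    intro p hp
    rw [hS, Finset.mem_filter, hA, Finset.mem_filter, Finset.mem_range] at hp
    obtain ⟨⟨h2, h3, h4⟩, h5⟩ := hp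
    refine ⟨h3, hcon p h3 h4 h5 ?_⟩
    have : (p : ℝ) ≤ m := by exact_mod_cast (by omega : p ≤ m)
    linarith
  have hprod := prod_primes_dvd S q (fun p hp => (hSp p hp).1) (fun p hp => (hSp p hp).2)
  have hle : ∑ p ∈ S, Real.log p ≤ Real.log q := by
    have h2 : (∏ p ∈ S, p) ≤ q := Nat.le_of_dvd hq hprod
    have h3 : (0 : ℝ) < ∏ p ∈ S, (p : ℝ) := by
      refine Finset.prod_pos fun p hp => ?_
      exact_mod_cast (hSp p hp).1.pos
    rw [← Real.log_prod (fun p hp => by
      have := (hSp p hp).1.ne_zero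
      exact_mod_cast this)]
    refine Real.log_le_log h3 ?_
    have : ((∏ p ∈ S, p : ℕ) : ℝ) ≤ q := by exact_mod_cast h2
    push_cast at this
    exact this
  -- small part
  have hsm : ∑ p ∈ A.filter (fun p : ℕ => ¬ (x / 8 ≤ (p : ℝ))), Real.log p ≤
      Real.log 4 * (x / 8) := by
    refine le_trans ?_ (Chebyshev.theta_le_log4_mul_x (by positivity))
    unfold Chebyshev.theta
    refine Finset.sum_le_sum_of_subset_of_nonneg ?_ ?_
    · intro p hp
      rw [Finset.mem_filter, hA, Finset.mem_filter] at hp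
      obtain ⟨⟨_, h3, _⟩, h5⟩ := hp
      rw [Finset.mem_filter, Finset.mem_Ioc]
      refine ⟨⟨h3.pos, ?_⟩, h3⟩
      exact Nat.le_floor (not_le.mp h5).le
    · intro p hp _
      rw [Finset.mem_filter] at hp
      exact Real.log_nonneg (by exact_mod_cast hp.2.one_lt.le)
  have hlog4 : Real.log 4 < 1.3864 := by
    have : Real.log 4 = 2 * Real.log 2 := by
      rw [show (4 : ℝ) = 2 ^ 2 by norm_num, Real.log_pow]
      norm_num
    rw [this]
    have := Real.log_two_lt_d9
    linarith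
  nlinarith

end Pool.Agent.W293.GZ
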